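import Pool.Agent.D0H53.AQ.Fin

set_option autoImplicit false

/-!
# Sums of partial quotients of almost all real algebraic numbers of a given degree

Let `d ≥ 2` and `κ < 1`. We order all real algebraic numbers of degree `d` (on the whole line, or in an interval
`[a, b)` with integer endpoints) by their height, the largest absolute value of the coefficients of the minimal
polynomial over `ℤ`. For all large `H` and almost all of these numbers `α` with height at most `H` the partial
quotients of `α` satisfy the inequality `a_1 + ⋯ + a_n ≤ C n²` of the question, and even `a_1 + ⋯ + a_n ≤ C n ^ (1 + ε)`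
for any given `ε > 0`, with one constant `C`, for all `n` for which the denominator `q_(n-1)` of the convergent before
`a_n` is at most `H ^ κ`. (As `a_1 + ⋯ + a_n ≥ n`, the exponent `1 + ε` cannot be replaced by one below `1`.)

The starting result `AlmostAllMultiples` is the statement with `C n²` for the integer multiples of one algebraic
number.

Proof: the number of the algebraic numbers `α` with height at most `H` and `|q α - p| ≤ δ` for some `p` is at most
`D (δ H ^ (d + 1) + τ(q) H ^ d)` for `q ≤ H` and `δ ≤ 1 / q`. This follows from the count of the pairs (polynomial,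
root) with the root in a short interval around `p / q`, whose error is smaller than for other intervals by the factor
`q` (`Pool.Agent.D0H53.AP.Frd`, `Pool.Agent.D0H53.AQ.Cnt`). The bound for `q ≤ H ^ κ` gives the two facts about
almost all `α` (`Pool.Agent.D0H53.AQ.Abs`) from which the inequality follows (`Pool.Agent.D0H53.AQ.Det`, the lemmas
of the starting files `Pool.Agent.H49.LM` with arbitrary exponents).
-/

namespace Pool.Agent.Results.MP_7bb85c_nt.AlmostAllByHeight

open Pool.Agent.D0H53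

/-- The real algebraic numbers of degree `d` and height at most `H` in the set `T`: the roots in `T` of the
irreducible polynomials in `ℤ[X]` of degree `d` with coefficients of absolute value at most `H`. -/
def Alg (d H : ℕ) (T : Set ℝ) : Set ℝ :=
  {α | α ∈ T ∧ ∃ P : Polynomial ℤ, Irreducible P ∧ P.natDegree = d ∧ (∀ i, |P.coeff i| ≤ (H : ℤ)) ∧
    Polynomial.aeval α P = 0}

/-- `a_1 + ⋯ + a_n ≤ C n ^ e` for the partial quotients of `α`, for all `n ≥ 1` such that the denominator `q_(n-1)`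
of the convergent before `a_n` is at most `N`. -/
def SumUpTo (e C N α : ℝ) : Prop :=
  ∀ n : ℕ, 1 ≤ n → (GenContFract.of α).dens (n - 1) ≤ N →
    ∑ k ∈ Finset.range n, ((GenContFract.of α).partDens.get? k).getD 0 ≤ C * (n : ℝ) ^ e

/-- `T` is the real line or an interval `[a, b)` with integer endpoints. -/
def Admissible (T : Set ℝ) : Prop := T = Set.univ ∨ ∃ a b : ℤ, a < b ∧ T = Set.Ico (a : ℝ) (b : ℝ)

/-- **Theorem.** Let `d ≥ 2`, let `T` be the real line or an interval `[a, b)` with integer endpoints, `κ < 1`,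
`ε > 0` and `η > 0`. There are `C` and `H₀` such that for all `H ≥ H₀` the set of the real algebraic numbers of degree
`d` and height at most `H` in `T` is finite and not empty, and all but at most the part `η` of them satisfy
`a_1 + ⋯ + a_n ≤ C n ^ (1 + ε)` for all `n ≥ 1` with `q_(n-1) ≤ H ^ κ`. -/
theorem result (d : ℕ) (hd : 2 ≤ d) (T : Set ℝ) (hT : Admissible T) (κ ε η : ℝ) (hκ : κ < 1) (hε : 0 < ε)
    (hη : 0 < η) :
    ∃ (C : ℝ) (H₀ : ℕ), ∀ H : ℕ, H₀ ≤ H → (Alg d H T).Finite ∧ 0 < (Alg d H T).ncard ∧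
      (({α ∈ Alg d H T | ¬ SumUpTo (1 + ε) C ((H : ℝ) ^ κ) α}.ncard : ℕ) : ℝ) ≤
        η * ((Alg d H T).ncard : ℝ) := by
  set κ' : ℝ := max κ (1 / 2) with hκ'
  have hκ'0 : 0 < κ' := lt_of_lt_of_le (by norm_num) (le_max_right _ _)
  have hκ'1 : κ' < 1 := max_lt hκ (by norm_num)
  have hd1 : 1 ≤ d := by omega
  have he : 1 < 1 + ε := by linarith
  have hPZ : AQ.PZ d κ' (1 + ε) T := by
    rcases hT with rfl | ⟨a, b, hab, rfl⟩
    · exact AQ.PZ_univ d hd κ' (1 + ε) he hκ'0 hκ'1
    · obtain ⟨m, hm⟩ : ∃ m : ℕ, b = a + (m + 1 : ℕ) := ⟨(b - a - 1).toNat, by omega⟩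
      have h := AQ.PZ_Ico d hd κ' (1 + ε) he hκ'0 hκ'1 a m
      have e : (a : ℝ) + ((m + 1 : ℕ) : ℝ) = (b : ℝ) := by
        rw [hm]
        push_cast
        ring
      rw [e] at h
      exact h
  have hge : ∃ c : ℝ, 0 < c ∧ ∃ H₁ : ℕ, 1 ≤ H₁ ∧ ∀ H : ℕ, H₁ ≤ H →
      c * (H : ℝ) ^ (d + 1) ≤ ((AP.AlgR d H T).ncard : ℝ) := by
    rcases hT with rfl | ⟨a, b, hab, rfl⟩
    · obtain ⟨c, hc, H₁, hH₁, h⟩ := AP.Alg_ge d hd1 0
      exact ⟨c, hc, H₁, hH₁, fun H hH => (h H hH).trans (AP.Alg_mono d hd1 H _ _ (Set.subset_univ _))⟩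
    · obtain ⟨c, hc, H₁, hH₁, h⟩ := AP.Alg_ge d hd1 a
      refine ⟨c, hc, H₁, hH₁, fun H hH => (h H hH).trans (AP.Alg_mono d hd1 H _ _ ?_)⟩
      apply Set.Ico_subset_Ico_right
      have : a + 1 ≤ b := hab
      exact_mod_cast this
  obtain ⟨C, H₂, h2⟩ := hPZ η hη
  obtain ⟨c, hc, H₁, hH₁, h1⟩ := hge
  refine ⟨C, max H₁ H₂, fun H hH => ?_⟩
  have hHa : H₁ ≤ H := (le_max_left _ _).trans hH
  have hH1 : 1 ≤ H := hH₁.trans hHa
  have hHR : (1 : ℝ) ≤ H := by exact_mod_cast hH1
  have hH0 : (0 : ℝ) < H := by linarith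
  have hfin : (Alg d H T).Finite := AP.AlgR_finite d H hd1 T
  refine ⟨hfin, ?_, ?_⟩
  · have h3 : (0 : ℝ) < ((Alg d H T).ncard : ℝ) := lt_of_lt_of_le (by positivity) (h1 H hHa)
    exact_mod_cast h3
  · have h3 := h2 H ((le_max_right _ _).trans hH)
    refine le_trans ?_ h3
    have hsub : {α ∈ Alg d H T | ¬ SumUpTo (1 + ε) C ((H : ℝ) ^ κ) α} ⊆
        AP.AlgR d H (T ∩ {x | ¬ AQ.Good (1 + ε) C ((H : ℝ) ^ κ') x}) := by
      rintro x ⟨⟨hx1, hx2⟩, hx3⟩
      refine ⟨⟨hx1, fun h => hx3 ?_⟩, hx2⟩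
      exact AQ.Good_mono le_rfl (Real.rpow_le_rpow_of_exponent_le hHR (le_max_left _ _)) h
    exact_mod_cast Set.ncard_le_ncard hsub (AP.AlgR_finite d H hd1 _)

end Pool.Agent.Results.MP_7bb85c_nt.AlmostAllByHeight
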