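import Pool.Agent.D0H53.AQ.Low

set_option autoImplicit false

/-!
# The large partial quotients of almost all real algebraic numbers of a given degree

Let `d ≥ 2` and `0 < c < 1`. We order all real algebraic numbers of degree `d` (on the whole line, or in an interval
`[a, b)` with integer endpoints) by their height, the largest absolute value of the coefficients of the minimal
polynomial over `ℤ`, and consider the partial quotients `a_(n+1)` for which the denominator `q_n` of the convergent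
before is at most `H ^ c`.

(1) The number of those which are larger than `y log H` has, as `H → ∞`, the Poisson law with the mean
`12 c / (π² y)` over the numbers of height at most `H` (convergence in total variation). (2) The largest of them,
divided by `log H`, has in the limit the distribution function `exp (-12 c / (π² y))`. (3) For every `C` the
inequality `a_1 + ⋯ + a_n ≤ C n` is false for some `n` with `q_(n-1) ≤ H ^ c`, for almost all the numbers: in the
inequality `a_1 + ⋯ + a_n ≤ C n ^ (1 + ε)` of `AlmostAllByHeight` the `ε` cannot be omitted.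

Proof: the Poisson law for the reduced fractions with `|α - p / q| ≤ δ / q²` (`Pool.Agent.D0H53.AP`) for
`δ = 1 / z` and `δ = 1 / (z + 4)`, `z = y log H`. A partial quotient larger than `z` gives such a fraction with
`δ = 1 / z`; such a fraction with `δ = 1 / (z + 4)` is a convergent, and the next partial quotient is larger than `z`
(`Pool.Agent.D0H53.AQ.Mx`). As both counts have the same limit law, the number of the large partial quotients, which
is between them, has it too (`Pool.Agent.D0H53.AQ.Lg`). The partial quotients with `q_n = 1` are bounded for almost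
all `α` by the facts behind `AlmostAllByHeight`. For (3) the sum is at least the sum over dyadic layers, and by (1)
each of the layers `y = y₀ / 2 ^ j` contributes at least a constant multiple of `log H`, hence of `n`
(`Pool.Agent.D0H53.AQ.Low`).
-/

namespace Pool.Agent.Results.MP_7bb85c_nt.LargePartialQuotients

open Pool.Agent.D0H53
open ProbabilityTheory (poissonMeasure)
open Filter Topology

/-- The real algebraic numbers of degree `d` and height at most `H` in the set `T`: the roots in `T` of the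
irreducible polynomials in `ℤ[X]` of degree `d` with coefficients of absolute value at most `H`. -/
def Alg (d H : ℕ) (T : Set ℝ) : Set ℝ :=
  {α | α ∈ T ∧ ∃ P : Polynomial ℤ, Irreducible P ∧ P.natDegree = d ∧ (∀ i, |P.coeff i| ≤ (H : ℤ)) ∧
    Polynomial.aeval α P = 0}

/-- The share of the numbers in `Alg d H T` which lie in `X`. -/
noncomputable def share (d H : ℕ) (T X : Set ℝ) : ℝ :=
  ((Alg d H T ∩ X).ncard : ℝ) / ((Alg d H T).ncard : ℝ)

/-- The number of the `n ≥ 0` such that the denominator `q_n` of the convergent is at most `N` and the next partial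
quotient `a_(n+1)` is larger than `z`. -/
noncomputable def large (N z α : ℝ) : ℕ :=
  {n : ℕ | (GenContFract.of α).dens n ≤ N ∧ z < ((GenContFract.of α).partDens.get? n).getD 0}.ncard

/-- `T` is the real line or an interval `[a, b)` with integer endpoints. -/
def Admissible (T : Set ℝ) : Prop := T = Set.univ ∨ ∃ a b : ℤ, a < b ∧ T = Set.Ico (a : ℝ) (b : ℝ)

theorem law_T (d : ℕ) (hd : 1 ≤ d) (T : Set ℝ) (hT : Admissible T) :
    AP.LawZ (fun H T => ((AP.AlgR d H T).ncard : ℝ)) T := by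
  rcases hT with rfl | ⟨a, b, hab, rfl⟩
  · exact AP.Alg_univ d hd
  · obtain ⟨m, hm⟩ : ∃ m : ℕ, b = a + (m + 1 : ℕ) := ⟨(b - a - 1).toNat, by omega⟩
    have h := AP.Alg_Ico d hd a m
    have e : (a : ℝ) + ((m + 1 : ℕ) : ℝ) = (b : ℝ) := by
      rw [hm]
      push_cast
      ring
    rw [e] at h
    exact h

theorem pz_T (d : ℕ) (hd : 2 ≤ d) (T : Set ℝ) (hT : Admissible T) : AQ.PZ d (1 / 2) 2 T := by
  rcases hT with rfl | ⟨a, b, hab, rfl⟩
  · exact AQ.PZ_univ d hd (1 / 2) 2 (by norm_num) (by norm_num) (by norm_num)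
  · obtain ⟨m, hm⟩ : ∃ m : ℕ, b = a + (m + 1 : ℕ) := ⟨(b - a - 1).toNat, by omega⟩
    have h := AQ.PZ_Ico d hd (1 / 2) 2 (by norm_num) (by norm_num) (by norm_num) a m
    have e : (a : ℝ) + ((m + 1 : ℕ) : ℝ) = (b : ℝ) := by
      rw [hm]
      push_cast
      ring
    rw [e] at h
    exact h

theorem ge_T (d : ℕ) (hd : 1 ≤ d) (T : Set ℝ) (hT : Admissible T) : ∃ H₀ : ℕ, ∀ H : ℕ, H₀ ≤ H →
    (0 : ℝ) < ((AP.AlgR d H T).ncard : ℝ) := by
  have h : ∃ a : ℤ, Set.Ico (a : ℝ) ((a : ℝ) + 1) ⊆ T := by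
    rcases hT with rfl | ⟨a, b, hab, rfl⟩
    · exact ⟨0, Set.subset_univ _⟩
    · refine ⟨a, Set.Ico_subset_Ico_right ?_⟩
      have : a + 1 ≤ b := hab
      exact_mod_cast this
  obtain ⟨a, ha⟩ := h
  obtain ⟨c, hc, H₀, hH₀, hge⟩ := AP.Alg_ge d hd a
  refine ⟨H₀, fun H hH => ?_⟩
  have hH1 : (0 : ℝ) < H := by exact_mod_cast hH₀.trans hH
  exact lt_of_lt_of_le (by positivity) ((hge H hH).trans (AP.Alg_mono d hd H _ _ ha))

/-- the Poisson law for the number of the large partial quotients -/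
theorem poisson_large (d : ℕ) (hd : 2 ≤ d) (T : Set ℝ) (hT : Admissible T) (c y : ℝ) (hc : 0 < c) (hc1 : c < 1)
    (hy : 0 < y) (ε : ℝ) (hε : 0 < ε) :
    ∃ H₀ : ℕ, ∀ H : ℕ, H₀ ≤ H → (Alg d H T).Finite ∧ 0 < (Alg d H T).ncard ∧ ∀ A : Set ℕ,
      |share d H T {α | large ((H : ℝ) ^ c) (y * Real.log H) α ∈ A} -
        (poissonMeasure (12 * c / (Real.pi ^ 2 * y)).toNNReal).real A| ≤ ε := by
  classical
  have hd1 : 1 ≤ d := by omega
  set r : ℝ := 12 * c / (Real.pi ^ 2 * y) with hr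
  have hr0 : 0 ≤ r := by positivity
  set P : Set ℕ → ℝ := fun A => (poissonMeasure r.toNNReal).real A with hPdef
  -- the tail of the Poisson law
  obtain ⟨K, hK⟩ := ((PL.exp_rem_tendsto r).eventually (gt_mem_nhds (by positivity : (0 : ℝ) < ε / 4))).exists
  have hPK : P (Set.Ici K) ≤ ε / 4 := by
    have h1 : (Set.Ici K : Set ℕ) = ((Finset.range K : Finset ℕ) : Set ℕ)ᶜ := by
      ext k
      simp
    have h2 : P (Set.Ici K) = 1 - ∑ j ∈ Finset.range K, PL.po r j := by
      show (poissonMeasure r.toNNReal).real (Set.Ici K) = _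
      rw [h1, MeasureTheory.probReal_compl_eq_one_sub (Finset.measurableSet _), PL.po_real r hr0]
    rw [h2]
    exact (PL.tail_le K r r hr0 le_rfl).trans hK.le
  have hK0 : (0 : ℝ) ≤ K := Nat.cast_nonneg K
  set ε' : ℝ := ε / (4 * (2 * K + 2)) with hε'
  have hε'0 : 0 < ε' := by positivity
  -- the Poisson law for the fractions
  obtain ⟨δ₀, hδ₀, H₁, hH₁, hlaw⟩ := law_T d hd1 T hT c hc1 (r + 1) (by linarith) ε' hε'0
  -- bounded partial quotients with `q_n = 1`
  obtain ⟨C, H₂, hgood⟩ := pz_T d hd T hT (ε / 4) (by positivity)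
  obtain ⟨H₃, hpos⟩ := ge_T d hd1 T hT
  have hlog : Tendsto (fun H : ℕ => y * Real.log (H : ℝ)) atTop atTop :=
    (Real.tendsto_log_atTop.comp tendsto_natCast_atTop_atTop).const_mul_atTop hy
  set W : ℝ := max (max 1 (max C 0 * 2 ^ (2 : ℝ))) (max (1 / δ₀) (2 * (y + 4) / (y * min δ₀ 1))) with hW
  obtain ⟨H₄, hH₄⟩ := Filter.eventually_atTop.1 (hlog.eventually_ge_atTop W)
  refine ⟨max (max H₁ H₂) (max (max H₃ H₄) 2), fun H hH => ?_⟩
  have hHa : H₁ ≤ H := (le_max_left _ _).trans ((le_max_left _ _).trans hH)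
  have hHb : H₂ ≤ H := (le_max_right _ _).trans ((le_max_left _ _).trans hH)
  have hHc : H₃ ≤ H := (le_max_left _ _).trans ((le_max_left _ _).trans ((le_max_right _ _).trans hH))
  have hHd : H₄ ≤ H := (le_max_right _ _).trans ((le_max_left _ _).trans ((le_max_right _ _).trans hH))
  have hH2 : 2 ≤ H := (le_max_right _ _).trans ((le_max_right _ _).trans hH)
  have hHR1 : (1 : ℝ) < H := by exact_mod_cast (by omega : 1 < H)
  have hz := hH₄ H hHd
  set z : ℝ := y * Real.log H with hzdef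
  have hz1 : 1 ≤ z := (le_max_left _ _).trans ((le_max_left _ _).trans hz)
  have hzC : max C 0 * 2 ^ (2 : ℝ) ≤ z := (le_max_right _ _).trans ((le_max_left _ _).trans hz)
  have hzδ : 1 / δ₀ ≤ z := (le_max_left _ _).trans ((le_max_right _ _).trans hz)
  have hzm : 2 * (y + 4) / (y * min δ₀ 1) ≤ z := (le_max_right _ _).trans ((le_max_right _ _).trans hz)
  have hz0 : 0 < z := by linarith
  have hfin : (Alg d H T).Finite := AP.AlgR_finite d H hd1 T
  have hcard : (0 : ℝ) < ((Alg d H T).ncard : ℝ) := hpos H hHc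
  have hNc1 : 1 ≤ (H : ℝ) ^ c := Real.one_le_rpow hHR1.le hc.le
  refine ⟨hfin, by exact_mod_cast hcard, fun A => ?_⟩
  have hirr : ∀ x ∈ Alg d H T, Irrational x := fun x hx => AQ.irr d hd H T x hx
  have hin : ∀ S : Set ℝ, AP.AlgR d H (T ∩ S) = Alg d H T ∩ S := by
    intro S
    ext x
    constructor
    · rintro ⟨⟨h1, h2⟩, h3⟩
      exact ⟨⟨h1, h3⟩, h2⟩
    · rintro ⟨⟨h1, h3⟩, h2⟩
      exact ⟨⟨h1, h2⟩, h3⟩
  -- the two laws
  have hlawt : ∀ t : ℝ, 0 ≤ t → t ≤ 4 → ∀ A : Set ℕ,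
      |((Alg d H T ∩ {x | (PL.Pr 1 ⌊(H : ℝ) ^ c⌋₊ (fun _ => 1 / (z + t)) x).ncard ∈ A}).ncard : ℝ) -
        P A * (Alg d H T).ncard| ≤ ε' * (Alg d H T).ncard := by
    intro t ht ht4 A
    have hzt : 0 < z + t := by linarith
    have hmb := AQ.mean_bd c y t hc hc1 hy ht H hH2
    have hm0 : 0 < min δ₀ 1 := lt_min hδ₀ one_pos
    have hmb' : |PL.Mn ⌊(H : ℝ) ^ c⌋₊ (fun _ => 1 / (z + t)) 1 - r| ≤ min δ₀ 1 := by
      refine hmb.trans ?_
      rw [← hzdef, mul_div_assoc', div_le_iff₀ (by positivity)]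
      rw [div_le_iff₀ (by positivity)] at hzm
      have h1 : min δ₀ 1 * (y * z) ≤ min δ₀ 1 * (y * (z + t)) := by
        apply mul_le_mul_of_nonneg_left _ hm0.le
        exact mul_le_mul_of_nonneg_left (by linarith) hy.le
      linarith
    have habs := abs_le.1 hmb'
    have hmle : min δ₀ 1 ≤ 1 := min_le_right _ _
    have h := hlaw H hHa 1 ⌊(H : ℝ) ^ c⌋₊ le_rfl (Nat.floor_le (by positivity)) (fun _ => 1 / (z + t))
      (fun _ _ _ _ _ => le_rfl) (fun _ _ _ => by positivity) (fun _ _ _ => by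
        rw [div_le_iff₀ hzt]
        rw [div_le_iff₀ hδ₀] at hzδ
        nlinarith) (by linarith [habs.2]) r hr0 (by linarith) (hmb'.trans (min_le_left _ _)) A
    simp only at h
    rw [hin] at h
    exact h
  -- the exceptional set
  set E : Set ℝ := {x | ¬ AQ.Good 2 C ((H : ℝ) ^ (1 / 2 : ℝ)) x} with hE
  have hEle : ((Alg d H T ∩ E).ncard : ℝ) ≤ ε / 4 * (Alg d H T).ncard := by
    have h := hgood H hHb
    rw [hin] at h
    exact h
  have hmain := AQ.tv_transfer (Alg d H T) E hfin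
    (fun x => (PL.Pr 1 ⌊(H : ℝ) ^ c⌋₊ (fun _ => 1 / (z + 4)) x).ncard) (large ((H : ℝ) ^ c) z)
    (fun x => (PL.Pr 1 ⌊(H : ℝ) ^ c⌋₊ (fun _ => 1 / (z + 0)) x).ncard) P K ε' (ε / 4) (ε / 4) ?_ ?_
    (hlawt 4 (by norm_num) le_rfl) (hlawt 0 le_rfl (by norm_num)) hEle hPK A
  · have h1 : (2 * (K : ℝ) + 2) * ε' + ε / 4 + ε / 4 ≤ ε := by
      have : (2 * (K : ℝ) + 2) * ε' = ε / 4 := by
        rw [hε']
        field_simp
      linarith
    have h2 := hmain.trans (mul_le_mul_of_nonneg_right h1 hcard.le)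
    have e1 : share d H T {α | large ((H : ℝ) ^ c) z α ∈ A} - P A =
        (((Alg d H T ∩ {x | large ((H : ℝ) ^ c) z x ∈ A}).ncard : ℝ) - P A * (Alg d H T).ncard) /
          (Alg d H T).ncard := by
      unfold share
      field_simp
    show |share d H T {α | large ((H : ℝ) ^ c) z α ∈ A} - P A| ≤ ε
    rw [e1, abs_div, abs_of_pos hcard, div_le_iff₀ hcard]
    exact h2
  · intro x _
    apply Set.ncard_le_ncard (AQ.Pr_mono _ _ _ _ ?_) (AQ.Pr_finite _ _ _ ?_)
    · apply one_div_le_one_div_of_le <;> linarith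
    · rw [add_zero, div_le_one hz0]
      exact hz1
  · intro x hx hxE
    have hgx : AQ.Good 2 C ((H : ℝ) ^ (1 / 2 : ℝ)) x := by
      by_contra hcon
      exact hxE hcon
    have hix := hirr x hx
    refine ⟨AQ.hits_le_lg x hix _ z (by positivity) hz0, ?_⟩
    have hle := AQ.lg_le_hits x hix 2 (max C 0) ((H : ℝ) ^ c) ((H : ℝ) ^ (1 / 2 : ℝ)) z
      (Real.one_le_rpow hHR1.le (by norm_num)) hz1 hzC (le_max_right _ _) (by norm_num)
      (AQ.Good_mono (le_max_left _ _) le_rfl hgx)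
    simp only [add_zero]
    exact hle

/-- almost all numbers have sums of partial quotients which are not linearly bounded -/
theorem sums_large (d : ℕ) (hd : 2 ≤ d) (T : Set ℝ) (hT : Admissible T) (c : ℝ) (hc : 0 < c) (hc1 : c < 1)
    (C η : ℝ) (hη : 0 < η) :
    ∃ H₀ : ℕ, ∀ H : ℕ, H₀ ≤ H → 1 - η ≤ share d H T {α | ∃ n : ℕ, 1 ≤ n ∧
      (GenContFract.of α).dens (n - 1) ≤ (H : ℝ) ^ c ∧
      C * n < ∑ k ∈ Finset.range n, ((GenContFract.of α).partDens.get? k).getD 0} := by
  classical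
  have hd1 : 1 ≤ d := by omega
  have hpi : (0 : ℝ) < Real.pi ^ 2 := by positivity
  set u : ℝ := 3 * c / (2 * Real.pi ^ 2) with hu
  have hu0 : 0 < u := by positivity
  -- the number of layers
  obtain ⟨J, hJ⟩ := exists_nat_gt (5 * |C| / u)
  have hJ0 : (0 : ℝ) < J := lt_of_le_of_lt (by positivity) hJ
  have hJ' : 5 * |C| < J * u := by rwa [div_lt_iff₀ hu0] at hJ
  set η' : ℝ := η / (2 * J) with hη'
  have hη'0 : 0 < η' := by positivity
  -- the first layer
  set r₀ : ℝ := 4 * |Real.log η'| + 1 with hr₀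
  have hr₀0 : 0 < r₀ := by positivity
  set y₀ : ℝ := 12 * c / (Real.pi ^ 2 * r₀) with hy₀
  have hy₀0 : 0 < y₀ := by positivity
  have hyr : ∀ j : ℕ, 12 * c / (Real.pi ^ 2 * (y₀ / 2 ^ j)) = r₀ * 2 ^ j := by
    intro j
    rw [hy₀]
    field_simp
  have hexp : ∀ j : ℕ, Real.exp (-(r₀ * 2 ^ j / 4)) ≤ η' := by
    intro j
    have h1 : r₀ ≤ r₀ * 2 ^ j := le_mul_of_one_le_right hr₀0.le (one_le_pow₀ (by norm_num))
    have h2 : -(r₀ * 2 ^ j / 4) ≤ Real.log η' := by
      have h3 := neg_abs_le (Real.log η')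
      rw [hr₀] at h1 ⊢
      linarith
    calc Real.exp (-(r₀ * 2 ^ j / 4)) ≤ Real.exp (Real.log η') := Real.exp_le_exp.2 h2
      _ = η' := Real.exp_log hη'0
  choose Hj hHj using fun j : ℕ => poisson_large d hd T hT c (y₀ / 2 ^ j) hc hc1 (by positivity) η' hη'0
  have hlog : Tendsto (fun H : ℕ => Real.log (H : ℝ)) atTop atTop :=
    Real.tendsto_log_atTop.comp tendsto_natCast_atTop_atTop
  obtain ⟨H₁, hH₁⟩ := Filter.eventually_atTop.1 (hlog.eventually_ge_atTop 1)
  refine ⟨max ((Finset.range J).sup Hj) (max H₁ (max 2 (Hj 0))), fun H hH => ?_⟩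
  have hHa : (Finset.range J).sup Hj ≤ H := (le_max_left _ _).trans hH
  have hHb : H₁ ≤ H := (le_max_left _ _).trans ((le_max_right _ _).trans hH)
  have hHc : 2 ≤ H := (le_max_left _ _).trans ((le_max_right _ _).trans ((le_max_right _ _).trans hH))
  have hHd : Hj 0 ≤ H := (le_max_right _ _).trans ((le_max_right _ _).trans ((le_max_right _ _).trans hH))
  have hl1 : 1 ≤ Real.log (H : ℝ) := hH₁ H hHb
  have hHR1 : (1 : ℝ) < H := by exact_mod_cast (by omega : 1 < H)
  have hH0 : (0 : ℝ) < H := by linarith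
  obtain ⟨hfin, hcard, -⟩ := hHj 0 H hHd
  have hcardR : (0 : ℝ) < ((Alg d H T).ncard : ℝ) := by exact_mod_cast hcard
  set l : ℝ := Real.log (H : ℝ) with hl
  -- the exceptional sets
  set Bd : ℕ → Set ℝ := fun j => {α | large ((H : ℝ) ^ c) (y₀ / 2 ^ j * l) α ∈
    {k : ℕ | (k : ℝ) ≤ r₀ * 2 ^ j / 4}} with hBd
  have hbad : ∀ j ∈ Finset.range J, ((Alg d H T ∩ Bd j).ncard : ℝ) ≤ 2 * η' * (Alg d H T).ncard := by
    intro j hj
    have h1 := (hHj j H ((Finset.le_sup hj).trans hHa)).2.2 {k : ℕ | (k : ℝ) ≤ r₀ * 2 ^ j / 4}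
    rw [hyr j] at h1
    have h2 := AQ.po_low (r₀ * 2 ^ j) (by positivity)
    have h3 := (abs_le.1 h1).2
    have h4 := hexp j
    have h5 : share d H T (Bd j) ≤ 2 * η' := by
      have h6 : share d H T (Bd j) - (poissonMeasure (r₀ * 2 ^ j).toNNReal).real {k : ℕ | (k : ℝ) ≤ r₀ * 2 ^ j / 4} ≤
        η' := h3
      linarith
    unfold share at h5
    rwa [div_le_iff₀ hcardR] at h5
  set Gd : Set ℝ := {α | ∃ n : ℕ, 1 ≤ n ∧ (GenContFract.of α).dens (n - 1) ≤ (H : ℝ) ^ c ∧
      C * n < ∑ k ∈ Finset.range n, ((GenContFract.of α).partDens.get? k).getD 0} with hGd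
  -- the covering
  have hcov : Alg d H T ⊆ (Alg d H T ∩ Gd) ∪ ⋃ j ∈ Finset.range J, (Alg d H T ∩ Bd j) := by
    intro x hx
    by_cases hxB : ∃ j ∈ Finset.range J, x ∈ Bd j
    · obtain ⟨j, hj, hxj⟩ := hxB
      right
      simp only [Set.mem_iUnion]
      exact ⟨j, hj, hx, hxj⟩
    · left
      refine ⟨hx, ?_⟩
      have hirr := AQ.irr d hd H T x hx
      obtain ⟨m, hm1, hm2, hm3, hm4⟩ := AQ.sum_ge x hirr ((H : ℝ) ^ c) (y₀ * l) (Real.one_le_rpow hHR1.le hc.le)
        (by positivity) J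
      refine ⟨m, hm1, hm2, ?_⟩
      have h1 : J * u * l ≤ ∑ j ∈ Finset.range J, y₀ * l / 2 ^ j / 2 * (AQ.lg ((H : ℝ) ^ c) (y₀ * l / 2 ^ j) x : ℝ) := by
        have h2 : J * u * l = ∑ j ∈ Finset.range J, u * l := by
          rw [Finset.sum_const, Finset.card_range, nsmul_eq_mul]
          ring
        rw [h2]
        refine Finset.sum_le_sum fun j hj => ?_
        have h3 : r₀ * 2 ^ j / 4 < (AQ.lg ((H : ℝ) ^ c) (y₀ * l / 2 ^ j) x : ℝ) := by
          by_contra hcon
          apply hxB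
          refine ⟨j, hj, ?_⟩
          have e1 : y₀ / 2 ^ j * l = y₀ * l / 2 ^ j := by ring
          show (large ((H : ℝ) ^ c) (y₀ / 2 ^ j * l) x : ℝ) ≤ r₀ * 2 ^ j / 4
          rw [e1]
          exact not_lt.1 hcon
        have h4 : u * l = y₀ * l / 2 ^ j / 2 * (r₀ * 2 ^ j / 4) := by
          rw [hu, hy₀]
          field_simp
          ring
        rw [h4]
        exact mul_le_mul_of_nonneg_left h3.le (by positivity)
      have h5 : (m : ℝ) ≤ 5 * l := by
        refine hm3.trans ?_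
        rw [Real.log_rpow hH0, ← hl]
        have h6 : (2 : ℝ) / 3 < Real.log 2 := by
          have := Real.log_two_gt_d9
          linarith
        have h7 : c * l / Real.log 2 ≤ 3 / 2 * l := by
          rw [div_le_iff₀ (by linarith)]
          nlinarith
        linarith
      have h8 : C * (m : ℝ) ≤ |C| * (5 * l) :=
        (mul_le_mul_of_nonneg_right (le_abs_self C) (Nat.cast_nonneg m)).trans
          (mul_le_mul_of_nonneg_left h5 (abs_nonneg C))
      have h9 : |C| * (5 * l) < J * u * l := by nlinarith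
      linarith
  have hle : ((Alg d H T).ncard : ℝ) ≤ ((Alg d H T ∩ Gd).ncard : ℝ) + η * (Alg d H T).ncard := by
    have hfinU : (⋃ j ∈ Finset.range J, (Alg d H T ∩ Bd j)).Finite :=
      hfin.subset (Set.iUnion₂_subset fun j _ => Set.inter_subset_left)
    have h1 := (Set.ncard_le_ncard hcov ((hfin.subset Set.inter_subset_left).union hfinU)).trans
      (Set.ncard_union_le _ _)
    have h2 : (⋃ j ∈ Finset.range J, (Alg d H T ∩ Bd j)).ncard ≤ ∑ j ∈ Finset.range J, (Alg d H T ∩ Bd j).ncard :=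
      Finset.set_ncard_biUnion_le _ _
    have h3 : ((∑ j ∈ Finset.range J, (Alg d H T ∩ Bd j).ncard : ℕ) : ℝ) ≤ η * (Alg d H T).ncard := by
      push_cast
      refine (Finset.sum_le_sum hbad).trans (le_of_eq ?_)
      rw [Finset.sum_const, Finset.card_range, nsmul_eq_mul, hη']
      field_simp
    have h4 : ((Alg d H T).ncard : ℝ) ≤ ((Alg d H T ∩ Gd).ncard : ℝ) +
        ((∑ j ∈ Finset.range J, (Alg d H T ∩ Bd j).ncard : ℕ) : ℝ) := by exact_mod_cast h1.trans (by omega)
    linarith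
  show 1 - η ≤ share d H T Gd
  unfold share
  rw [le_div_iff₀ hcardR]
  linarith

/-- **Theorem.** Let `d ≥ 2`, let `T` be the real line or an interval `[a, b)` with integer endpoints and `0 < c < 1`.
(1) For `y > 0` the distribution of the number of the partial quotients `a_(n+1) > y log H` with `q_n ≤ H ^ c` over
the real algebraic numbers of degree `d` and height at most `H` in `T` tends in total variation to the Poisson law
with the mean `12 c / (π² y)`. (2) The share of the numbers for which all `a_(n+1)` with `q_n ≤ H ^ c` are at most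
`y log H` tends to `exp (-12 c / (π² y))`. (3) For every `C` the share of the numbers with
`a_1 + ⋯ + a_n > C n` for some `n ≥ 1` with `q_(n-1) ≤ H ^ c` tends to one. -/
theorem result (d : ℕ) (hd : 2 ≤ d) (T : Set ℝ) (hT : Admissible T) (c : ℝ) (hc : 0 < c) (hc1 : c < 1) :
    (∀ y ε : ℝ, 0 < y → 0 < ε → ∃ H₀ : ℕ, ∀ H : ℕ, H₀ ≤ H → (Alg d H T).Finite ∧ 0 < (Alg d H T).ncard ∧
      ∀ A : Set ℕ, |share d H T {α | large ((H : ℝ) ^ c) (y * Real.log H) α ∈ A} -
        (poissonMeasure (12 * c / (Real.pi ^ 2 * y)).toNNReal).real A| ≤ ε) ∧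
    (∀ y ε : ℝ, 0 < y → 0 < ε → ∃ H₀ : ℕ, ∀ H : ℕ, H₀ ≤ H →
      |share d H T {α | ∀ n : ℕ, (GenContFract.of α).dens n ≤ (H : ℝ) ^ c →
          ((GenContFract.of α).partDens.get? n).getD 0 ≤ y * Real.log H} -
        Real.exp (-(12 * c / (Real.pi ^ 2 * y)))| ≤ ε) ∧
    (∀ C η : ℝ, 0 < η → ∃ H₀ : ℕ, ∀ H : ℕ, H₀ ≤ H → 1 - η ≤ share d H T {α | ∃ n : ℕ, 1 ≤ n ∧
      (GenContFract.of α).dens (n - 1) ≤ (H : ℝ) ^ c ∧
      C * n < ∑ k ∈ Finset.range n, ((GenContFract.of α).partDens.get? k).getD 0}) := by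
  refine ⟨fun y ε hy hε => poisson_large d hd T hT c y hc hc1 hy ε hε, fun y ε hy hε => ?_,
    fun C η hη => sums_large d hd T hT c hc hc1 C η hη⟩
  obtain ⟨H₀, h⟩ := poisson_large d hd T hT c y hc hc1 hy ε hε
  refine ⟨H₀, fun H hH => ?_⟩
  have h1 := (h H hH).2.2 {0}
  have e1 : (poissonMeasure (12 * c / (Real.pi ^ 2 * y)).toNNReal).real {0} =
      Real.exp (-(12 * c / (Real.pi ^ 2 * y))) := by
    rw [ProbabilityTheory.poissonMeasure_real_singleton, Real.coe_toNNReal _ (by positivity)]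
    simp
  have e2 : share d H T {α | large ((H : ℝ) ^ c) (y * Real.log H) α ∈ ({0} : Set ℕ)} =
      share d H T {α | ∀ n : ℕ, (GenContFract.of α).dens n ≤ (H : ℝ) ^ c →
          ((GenContFract.of α).partDens.get? n).getD 0 ≤ y * Real.log H} := by
    unfold share
    congr 3
    ext x
    constructor
    · rintro ⟨hx, h2⟩
      refine ⟨hx, fun n hn => ?_⟩
      have h3 : large ((H : ℝ) ^ c) (y * Real.log H) x = 0 := h2
      have h4 := (Set.ncard_eq_zero (AQ.lg_finite x (AQ.irr d hd H T x hx) _ _)).1 h3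
      by_contra hcon
      have h5 : n ∈ {n : ℕ | (GenContFract.of x).dens n ≤ (H : ℝ) ^ c ∧
        y * Real.log H < ((GenContFract.of x).partDens.get? n).getD 0} := ⟨hn, not_le.1 hcon⟩
      rw [h4] at h5
      exact h5
    · rintro ⟨hx, h2⟩
      refine ⟨hx, ?_⟩
      show large ((H : ℝ) ^ c) (y * Real.log H) x = 0
      unfold large
      rw [Set.ncard_eq_zero (AQ.lg_finite x (AQ.irr d hd H T x hx) _ _), Set.eq_empty_iff_forall_notMem]
      rintro n ⟨h3, h4⟩
      exact absurd (h2 n h3) (not_le.2 h4)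
  rw [e1, e2] at h1
  exact h1

end Pool.Agent.Results.MP_7bb85c_nt.LargePartialQuotients
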